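import Pool.Agent.Lib.MP_0a76a5_co.Box

/-!
Almost every Latin square of order `n` has no empty box of volume more than `C * n ^ 2`.
-/

set_option autoImplicit false

open Filter Topology

namespace Pool.Agent.Results.MP_0a76a5_co.Main

/-- `L` is a Latin square of order `n`: every row and every column is a bijection. -/
def IsLatinSquare {n : ℕ} (L : Fin n → Fin n → Fin n) : Prop :=
  (∀ i, Function.Bijective fun j => L i j) ∧ (∀ j, Function.Bijective fun i => L i j)

/-- `L(X, Y, Z)`: the number of cells `(i, j)` in `X × Y` whose symbol lies in `Z`. -/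
def boxCount {n : ℕ} (L : Fin n → Fin n → Fin n) (X Y Z : Finset (Fin n)) : ℕ :=
  ((X ×ˢ Y).filter fun p => L p.1 p.2 ∈ Z).card

/-- The largest volume `|X| |Y| |Z|` of an empty box of `L`. -/
def emptyVol {n : ℕ} (L : Fin n → Fin n → Fin n) : ℕ :=
  (Finset.univ.filter fun b : Finset (Fin n) × Finset (Fin n) × Finset (Fin n) =>
      boxCount L b.1 b.2.1 b.2.2 = 0).sup
    fun b => b.1.card * b.2.1.card * b.2.2.card

open Pool.Agent.Lib.MP_0a76a5_co in
theorem result : ∃ C : ℝ, 0 < C ∧
    Tendsto (fun n : ℕ =>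
      (({L : Fin n → Fin n → Fin n | IsLatinSquare L ∧ (emptyVol L : ℝ) ≤ C * (n : ℝ) ^ 2}.ncard : ℝ) /
        ({L : Fin n → Fin n → Fin n | IsLatinSquare L}.ncard : ℝ))) atTop (𝓝 1) := by
  refine ⟨20582400, by norm_num, ?_⟩
  have hlim : Tendsto (fun n : ℕ => 1 - 2 * (1 / 2 : ℝ) ^ n) atTop (𝓝 1) := by
    have h := (tendsto_pow_atTop_nhds_zero_of_lt_one (r := (1 / 2 : ℝ)) (by norm_num)
      (by norm_num)).const_mul 2
    simpa using h.const_sub 1
  have key : ∀ n : ℕ, 20 ≤ n →
      1 - 2 * (1 / 2 : ℝ) ^ n ≤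
        (({L : Fin n → Fin n → Fin n | IsLatinSquare L ∧
          (emptyVol L : ℝ) ≤ 20582400 * (n : ℝ) ^ 2}.ncard : ℝ) /
        ({L : Fin n → Fin n → Fin n | IsLatinSquare L}.ncard : ℝ)) ∧
      (({L : Fin n → Fin n → Fin n | IsLatinSquare L ∧
          (emptyVol L : ℝ) ≤ 20582400 * (n : ℝ) ^ 2}.ncard : ℝ) /
        ({L : Fin n → Fin n → Fin n | IsLatinSquare L}.ncard : ℝ)) ≤ 1 := by
    intro n hn
    have : NeZero n := ⟨by omega⟩
    have eLS : {L : Fin n → Fin n → Fin n | IsLatinSquare L} = (LS (Fin n) : Set _) := by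
      ext L
      simp only [LS, Set.mem_ofPred_eq, Finset.mem_coe, mem_fs]
      rfl
    set G := {L : Fin n → Fin n → Fin n | IsLatinSquare L ∧
          (emptyVol L : ℝ) ≤ 20582400 * (n : ℝ) ^ 2} with hG
    have hpos : 0 < (LS (Fin n)).card := by
      apply Finset.card_pos.2
      refine ⟨fun i j => i + j, mem_fs.2 ⟨fun i => ?_, fun j => ?_⟩⟩
      · exact (Equiv.addLeft i).bijective
      · exact (Equiv.addRight j).bijective
    have hsub : G ⊆ (LS (Fin n) : Set _) := by
      rw [← eLS]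
      intro L hL
      exact hL.1
    have hcov : (LS (Fin n) : Set (Fin n → Fin n → Fin n)) ⊆ G ∪ (Bad (Fin n) : Set _) := by
      intro L hL
      have hL' : Latin L := mem_fs.1 hL
      by_cases hv : emptyVol L ≤ 20582400 * n ^ 2
      · left
        exact ⟨hL', by exact_mod_cast hv⟩
      · right
        rw [not_le, emptyVol, Finset.lt_sup_iff] at hv
        obtain ⟨⟨X, Y, Z⟩, hb, hv⟩ := hv
        refine mem_fs.2 ⟨hL', X, Y, Z, ?_, by simpa using hv⟩
        intro i hi j hj hz
        rw [Finset.mem_filter, boxCount, Finset.card_eq_zero, Finset.filter_eq_empty_iff] at hb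
        exact hb.2 (x := (i, j)) (Finset.mem_product.2 ⟨hi, hj⟩) hz
    have c1 : G.ncard ≤ (LS (Fin n)).card := by
      rw [← Set.ncard_coe_finset]
      exact Set.ncard_le_ncard hsub (Finset.finite_toSet _)
    have c2 : (LS (Fin n)).card ≤ G.ncard + (Bad (Fin n)).card := by
      rw [← Set.ncard_coe_finset, ← Set.ncard_coe_finset]
      exact le_trans (Set.ncard_le_ncard hcov (Set.toFinite _)) (Set.ncard_union_le _ _)
    have c3 := bad_bound (α := Fin n) (by simpa using hn)
    rw [Fintype.card_fin] at c3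
    rw [eLS, Set.ncard_coe_finset]
    have hpos' : (0 : ℝ) < (LS (Fin n)).card := by exact_mod_cast hpos
    have c1' : (G.ncard : ℝ) ≤ (LS (Fin n)).card := by exact_mod_cast c1
    have c2' : ((LS (Fin n)).card : ℝ) ≤ G.ncard + (Bad (Fin n)).card := by exact_mod_cast c2
    constructor
    · rw [le_div_iff₀ hpos']
      have h2 : (0 : ℝ) < 2 ^ n := by positivity
      have h3 : ((Bad (Fin n)).card : ℝ) ≤ 2 * (1 / 2 : ℝ) ^ n * (LS (Fin n)).card := by
        rw [one_div, inv_pow, mul_assoc, mul_comm ((2 : ℝ) ^ n)⁻¹, ← mul_assoc, ← div_eq_mul_inv,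
          le_div_iff₀ h2]
        exact c3
      linarith
    · rw [div_le_one hpos']
      exact c1'
  apply tendsto_of_tendsto_of_tendsto_of_le_of_le' hlim tendsto_const_nhds
  · filter_upwards [eventually_ge_atTop 20] with n hn using (key n hn).1
  · filter_upwards [eventually_ge_atTop 20] with n hn using (key n hn).2

end Pool.Agent.Results.MP_0a76a5_co.Main
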